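import Pool.Agent.H85.Stek4c

set_option autoImplicit false

namespace Pool.Agent.Results.MP_7e83e7_gt.SteklovNotNeumann

open Pool.Agent.H85.Stek4Defs

/-- On the 4-manifold with boundary `[0, π] × T³` there are two smooth Riemannian metrics which are
Steklov isospectral but not Neumann isospectral. -/
theorem result : ∃ g₁ g₂ : Pt → Matrix (Fin 4) (Fin 4) ℝ, IsMetric g₁ ∧ IsMetric g₂ ∧
    (∀ s, steklovMult g₁ s = steklovMult g₂ s) ∧ ∃ l, neumannMult g₁ l ≠ neumannMult g₂ l :=
  Pool.Agent.H85.Stek4.main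

end Pool.Agent.Results.MP_7e83e7_gt.SteklovNotNeumann
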